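import Pool.Agent.TH381.RM2.Defs
import Pool.Agent.TH381.RM.Fun

/-!
Cube roots, and the statement of the last part.
-/

set_option autoImplicit false

namespace Pool.Agent.TH381.RM2

open Pool.Agent.H584R2.Dg Pool.Agent.W614.Dg Pool.Agent.H539R2 Pool.Agent.TH381.RM

/-- The least `s` with `n < s ^ 3`. -/
def cbr (n : ℕ) : ℕ :=
  nrec 0 (fun _ acc => if (acc + 1) * (acc + 1) * (acc + 1) ≤ n then acc + 1 else acc) (n + 1) + 1

theorem cbr_aux (n m : ℕ) :
    let r := nrec 0 (fun _ acc => if (acc + 1) * (acc + 1) * (acc + 1) ≤ n then acc + 1 else acc) m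
    r ≤ m ∧ r * r * r ≤ n ∧ (r = m ∨ n < (r + 1) * (r + 1) * (r + 1)) := by
  induction m with
  | zero => simp
  | succ m ih =>
    obtain ⟨h1, h2, h3⟩ := ih
    simp only [nrec_succ]
    split_ifs with h
    · refine ⟨by omega, h, ?_⟩
      rcases h3 with h3 | h3
      · left; omega
      · omega
    · refine ⟨by omega, h2, ?_⟩
      right
      omega

theorem cbr_pos (n : ℕ) : 1 ≤ cbr n := by unfold cbr; omega

theorem lt_cbr (n : ℕ) : n < cbr n ^ 3 := by
  obtain ⟨h1, h2, h3⟩ := cbr_aux n (n + 1)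
  unfold cbr
  rcases h3 with h3 | h3
  · rw [h3] at h2
    exfalso
    have : n + 1 ≤ (n + 1) * (n + 1) * (n + 1) := Nat.le_mul_of_pos_left _ (by positivity)
    omega
  · calc n < _ := h3
      _ = _ := by ring

theorem cbr_le (n : ℕ) : (cbr n - 1) ^ 3 ≤ n := by
  obtain ⟨h1, h2, h3⟩ := cbr_aux n (n + 1)
  unfold cbr
  rw [Nat.add_sub_cancel]
  calc _ = _ := by ring
    _ ≤ n := h2

theorem cbr_succ (n : ℕ) : cbr (n + 1) ≤ cbr n + 1 := by
  by_contra hc
  push Not at hc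
  have h1 := cbr_le (n + 1)
  have h2 := lt_cbr n
  have h3 : (cbr n + 1) ^ 3 ≤ (cbr (n + 1) - 1) ^ 3 := Nat.pow_le_pow_left (by omega) 3
  have h4 : cbr n ^ 3 < (cbr n + 1) ^ 3 := Nat.pow_lt_pow_left (by omega) (by norm_num)
  omega

theorem LS_cbr {f : (ℕ → ℕ) → ℕ} (hf : LS f) : LS (fun ρ => cbr (f ρ)) := by
  refine LS.comp1 (F := fun x => cbr x) ?_ hf
  unfold cbr
  refine LS.succ ?_
  exact LS.nrecB (c := fun ρ => ρ 0 + 1) (a := fun _ => 0)
    (b := fun _ acc ρ => if (acc + 1) * (acc + 1) * (acc + 1) ≤ ρ 0 then acc + 1 else acc)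
    (g := fun ρ => ρ 0 + 1)
    (LS.var 0).succ LS.zero
    (LS.ite (LSP.le (((LS.var 0).succ.mul (LS.var 0).succ).mul (LS.var 0).succ) (LS.var 2))
      (LS.var 0).succ (LS.var 0))
    (LS.var 0).succ (by
      intro ρ m hm
      exact (cbr_aux (ρ 0) m).1.trans hm)

/-- FIN: a word whose `n`-th letter is computed with numbers which are polynomially bounded in
`(48 B + 24) ^ (c B)`, `B = d cbr n`, is generated in space `O(n ^ (1 / 3) log n)`. -/
def SFin : Prop := ∀ (S : Type) (w : ℕ → S) (M c d : ℕ) (co : Option S → ℕ) (e : ℕ → Option S)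
  (Lt : ℕ → ℕ → ℕ), Coding M co e → 1 ≤ c → 1 ≤ d → LS (fun ρ => Lt (ρ 0) (ρ 1)) →
  (∀ n X, (48 * (d * cbr n) + 24) ^ (c * (d * cbr n)) ≤ X → Lt n X = co (some (w n))) →
  InSpace (fun n => (n : ℝ) ^ (1 / 3 : ℝ) * (Real.log n + 1)) w

end Pool.Agent.TH381.RM2
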