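import Pool.Agent.TH381.RM2.Letter
import Pool.Agent.TH381.RM.Quad

/-!
Correctness of the letter function.
-/

set_option autoImplicit false
set_option linter.unusedVariables false

namespace Pool.Agent.TH381.RM2

open Pool.Agent.H584R2.Dg Pool.Agent.W614.Dg Pool.Agent.H539R2 Pool.Agent.TH381.RM

/-- the data are correct -/
structure DataOK {S : Type} (P : Data) (τ : Dgsm S) (R0 : List S) (M q Q : ℕ)
    (co : Option S → ℕ) : Prop where
  y0 : P.y0 = cl M co R0
  ln : ∀ v, P.ln (cl M co v) = v.length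
  lt : ∀ v, cl M co v < M ^ v.length
  mp : ∀ X v, M ^ (P.K * v.length + 1) ≤ X → P.mp X (cl M co v) = cl M co (τ.map v)
  hB : ∀ X B l t y, 1 ≤ B → t < B * B → (48 * B + 24) ^ (8 * q * B) ≤ X →
    P.hB X B l (cl M co y) t = co (buf (cb τ y l t 0)).head?
  hd : ∀ (g : ℕ → ℕ) (X k t : ℕ) (y : List S), (∀ c, g c = co (y[c]?)) → Q ^ (k + 1) ≤ X →
    P.hd g X k t = co (buf (cf τ y k t 0)).head?

theorem T2_lt {K S : ℕ} (hS : 1 ≤ S) : T2 K S < B2 K S * B2 K S := by
  unfold T2 B2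
  have h1 : 1 ≤ S * S := Nat.mul_pos hS hS
  have h2 : (2 * K + 3) * S * ((2 * K + 3) * S) = (4 * K * K + 12 * K + 9) * (S * S) := by ring
  rw [h2]
  nlinarith [Nat.zero_le (K * K * (S * S)), Nat.zero_le (K * (S * S))]

section

variable {S : Type} {P : Data} {τ : Dgsm S} {R0 : List S} {M q Q : ℕ} {co : Option S → ℕ}
  {e : ℕ → Option S}

theorem D2_spec (hbelt : SBelt) (hP : DataOK P τ R0 M q Q co) (hco : Coding M co e)
    (hne : τ.NonErasing) {X s i : ℕ} {y : List S} (hs : 1 ≤ s)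
    (hX : (48 * B2 P.K s + 24) ^ (8 * q * B2 P.K s) ≤ X) (hi : i ≤ s * s)
    (hy : (τ.map^[i] y).length ≤ P.K * (s * s)) :
    P.D2 X s i (cl M co y) = (τ.map^[i] y).length ∧
    ∀ j, P.l2 X s i (cl M co y) j = co ((τ.map^[i] y)[j]?) := by
  have hT : 4 * (τ.map^[i] y).length + i + 4 ≤ T2 P.K s := by
    unfold T2
    nlinarith
  have hB : 1 ≤ B2 P.K s := by
    unfold B2
    exact Nat.mul_pos (by omega) hs
  have hh : ∀ t < T2 P.K s, P.h2 X s i (cl M co y) t = co (buf (cb τ y i t 0)).head? := by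
    intro t ht
    exact hP.hB X (B2 P.K s) i t y hB (ht.trans (T2_lt hs)) hX
  have hl := (hbelt S τ y i hne).1 _ hT
  constructor
  · rw [← hl]
    exact cntf_spec hco hh
  · intro j
    rw [← hl]
    exact ltrf_spec hco hh j

theorem D3_spec (hpipe : SPipe) (hP : DataOK P τ R0 M q Q co) (hco : Coding M co e)
    (hne : τ.NonErasing) {X s i n k : ℕ} {y y' : List S}
    (hy : ∀ j, P.l2 X s i (cl M co y) j = co (y'[j]?)) (hQ : Q ^ (k + 1) ≤ X) (hk : k ≤ n)
    (hy' : (τ.map^[k] y').length ≤ P.K * (n + s * s)) :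
    P.D3 X s i (cl M co y) n k = (τ.map^[k] y').length ∧
    ∀ j, P.l3 X s i (cl M co y) n k j = co ((τ.map^[k] y')[j]?) := by
  have hT : 2 * (τ.map^[k] y').length + k + 3 ≤ T3 P.K s n := by
    unfold T3
    nlinarith
  have hh : ∀ t < T3 P.K s n, P.h3 X s i (cl M co y) k t = co (buf (cf τ y' k t 0)).head? := by
    intro t ht
    exact hP.hd _ X k t y' hy hQ
  have hl := (hpipe S τ y' k hne).1 _ hT
  constructor
  · rw [← hl]
    exact cntf_spec hco hh
  · intro j
    rw [← hl]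
    exact ltrf_spec hco hh j

theorem loop1_succ (P : Data) (X s n m : ℕ) : P.loop1 X s n (m + 1) =
    (if P.ln (P.loop1 X s n m).1 ≤ s ∧ (P.loop1 X s n m).2 + P.ln (P.loop1 X s n m).1 ≤ n then
      min (P.mp X (P.loop1 X s n m).1) X else (P.loop1 X s n m).1,
     if P.ln (P.loop1 X s n m).1 ≤ s ∧ (P.loop1 X s n m).2 + P.ln (P.loop1 X s n m).1 ≤ n then
      (P.loop1 X s n m).2 + P.ln (P.loop1 X s n m).1 else (P.loop1 X s n m).2) := rfl

theorem loop1_eq (hP : DataOK P τ R0 M q Q co) (hM : 1 ≤ M)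
    (hK : ∀ q x, (τ.out q x).length ≤ P.K) {X s n : ℕ} (hX : M ^ (P.K * s + 1) ≤ X) (m : ℕ) :
    P.loop1 X s n m = (cl M co (τ.map^[(walk (fun l => (τ.map^[l] R0).length) s n 1 m).1] R0),
      (walk (fun l => (τ.map^[l] R0).length) s n 1 m).2) := by
  induction m with
  | zero =>
    show (P.y0, 1) = _
    rw [hP.y0]
    rfl
  | succ m ih =>
    rw [loop1_succ, ih, walk_succ]
    obtain ⟨x, hx⟩ : ∃ x, x = walk (fun l => (τ.map^[l] R0).length) s n 1 m := ⟨_, rfl⟩
    rw [← hx]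
    simp only [hP.ln]
    by_cases hc : (τ.map^[x.1] R0).length ≤ s ∧ x.2 + (τ.map^[x.1] R0).length ≤ n
    · simp only [if_pos hc]
      have h1 : M ^ (P.K * (τ.map^[x.1] R0).length + 1) ≤ X := by
        refine le_trans (Nat.pow_le_pow_right hM ?_) hX
        have := Nat.mul_le_mul_left P.K hc.1
        omega
      rw [hP.mp X _ h1, ← Function.iterate_succ_apply' (f := τ.map)]
      congr 1
      apply min_eq_left
      refine (hP.lt _).le.trans ?_
      refine le_trans (Nat.pow_le_pow_right hM ?_) hX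
      have h2 : (τ.map^[x.1.succ] R0).length ≤ P.K * (τ.map^[x.1] R0).length :=
        row_le hK R0 x.1
      have := Nat.mul_le_mul_left P.K hc.1
      omega
    · simp only [if_neg hc]

end

section

variable {S : Type} {τ : Dgsm S} {a h : S}

theorem word_row (hr : RowMarker τ a h) {u : List S}
    (hu : τ.out τ.init a = a :: h :: u) {w : ℕ → S} (hw : τ.IsLimit a w) {l j : ℕ}
    (hj : j < (τ.map^[l] (h :: u)).length) :
    (τ.map^[l] (h :: u))[j]? = some (w ((τ.map^[l] [a]).length + j)) := by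
  have h1 := hw.2.2 (l + 1)
  rw [map_succ hr hu] at h1
  have h4 : (τ.map^[l] [a]).length + j < (τ.map^[l] [a] ++ τ.map^[l] (h :: u)).length := by
    rw [List.length_append]
    omega
  have h3 := h1 _ h4
  rw [List.getElem?_eq_getElem hj, ← h3]
  congr 1
  rw [List.getElem_append_right (by omega)]
  congr 1
  omega

end

/-- The letter function is correct. -/
theorem Lt_spec (hbelt : SBelt) (hpipe : SPipe) {S : Type} {P : Data} {τ : Dgsm S}
    {M q Q : ℕ} {co : Option S → ℕ} {e : ℕ → Option S} {a h : S} {u : List S} {w : ℕ → S}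
    (hP : DataOK P τ (h :: u) M q Q co) (hco : Coding M co e) (hcoa : P.coa = co (some a))
    (hne : τ.NonErasing) (hw : τ.IsLimit a w) (hr : RowMarker τ a h)
    (hu : τ.out τ.init a = a :: h :: u) (hK : ∀ q x, (τ.out q x).length ≤ P.K) (hK1 : 1 ≤ P.K)
    (hKu : (h :: u).length ≤ P.K) (hQ : 1 ≤ Q) {n X : ℕ}
    (hX1 : (48 * B2 P.K (cbr n) + 24) ^ (8 * q * B2 P.K (cbr n)) ≤ X)
    (hX2 : Q ^ cbr n ≤ X) (hX3 : M ^ (P.K * cbr n + 1) ≤ X) :
    P.Lt n X = co (some (w n)) := by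
  have hM : 1 ≤ M := by have := hco.lt none; omega
  unfold Data.Lt
  by_cases hn : n = 0
  · rw [if_pos hn, hcoa, hn, word_zero hw]
  rw [if_neg hn]
  obtain ⟨s, hs⟩ : ∃ s, s = cbr n := ⟨_, rfl⟩
  have hs1 : 1 ≤ s := by rw [hs]; exact cbr_pos n
  have hns : n < s ^ 3 := by rw [hs]; exact lt_cbr n
  have hns' : n < s * s * s := by
    calc n < s ^ 3 := hns
      _ = _ := by ring
  rw [← hs] at hX1 hX2 hX3 ⊢
  -- the rows
  obtain ⟨R, hR⟩ : ∃ R : ℕ → List S, R = fun l => τ.map^[l] (h :: u) := ⟨_, rfl⟩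
  obtain ⟨D, hD⟩ : ∃ D : ℕ → ℕ, D = fun l => (τ.map^[l] (h :: u)).length := ⟨_, rfl⟩
  obtain ⟨N, hN⟩ : ∃ N : ℕ → ℕ, N = fun l => (τ.map^[l] [a]).length := ⟨_, rfl⟩
  have hRD : ∀ l, (R l).length = D l := by intro l; rw [hR, hD]
  have hadd : ∀ l k, τ.map^[k] (R l) = R (l + k) := by
    intro l k
    rw [hR]
    show τ.map^[k] (τ.map^[l] (h :: u)) = τ.map^[l + k] (h :: u)
    rw [add_comm l k, Function.iterate_add_apply]
  have hN0 : N 0 = 1 := by rw [hN]; rfl
  have hNs : ∀ l, N (l + 1) = N l + D l := by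
    intro l
    rw [hN, hD]
    show (τ.map^[l + 1] [a]).length = _
    rw [map_succ hr hu, List.length_append]
  have hD1 : ∀ l, 1 ≤ D l := by intro l; rw [hD]; exact row_pos hne h u l
  have hDK : ∀ l, D (l + 1) ≤ P.K * D l := by intro l; rw [hD]; exact row_le hK _ l
  have hNsum : ∀ l k, N l + k * D l ≤ N (l + k) := by
    intro l k; rw [hN, hD]; exact row_sum hne hr hu l k
  have hNl : ∀ l, l ≤ N l := by
    intro l
    induction l with
    | zero => omega
    | succ l ih => rw [hNs]; have := hD1 l; omega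
  -- the first loop
  have hy1N1 : P.y1 n X = cl M co (R (walk D s n 1 (n + 1)).1) ∧
      P.N1 n X = (walk D s n 1 (n + 1)).2 := by
    have := loop1_eq hP hM hK (n := n) (s := s) hX3 (n + 1)
    unfold Data.y1 Data.N1
    rw [← hs, this, hR, hD]
    exact ⟨rfl, rfl⟩
  have hw1 := walk_spec (b := s) hNs (by rw [hN0]; omega : N 0 ≤ n) (n + 1)
  have hw1' := walk_end (b := s) hNs (by rw [hN0]; omega : N 0 ≤ n) hD1
  rw [hN0] at hw1 hw1'
  obtain ⟨l1, hl1⟩ : ∃ l1, l1 = (walk D s n 1 (n + 1)).1 := ⟨_, rfl⟩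
  rw [← hl1] at hw1 hw1' hy1N1
  rw [hw1.1] at hy1N1
  obtain ⟨-, hw1b, hw1c⟩ := hw1
  have hDl1 : D l1 ≤ P.K * s := by
    cases hc : l1 with
    | zero =>
      have : D 0 ≤ P.K := by rw [hD]; exact hKu
      nlinarith
    | succ l0 =>
      have h1 := hDK l0
      have h2 := (hw1c l0 (by omega)).1
      have h3 := Nat.mul_le_mul_left P.K h2
      omega
  -- the second loop
  have hNs2 : ∀ x, N (l1 + (x + 1)) = N (l1 + x) + D (l1 + x) := fun x => hNs (l1 + x)
  have hbig2 : ∀ x, (∀ i < x, D (l1 + i) ≤ s * s ∧ N (l1 + i) + D (l1 + i) ≤ n) →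
      N (l1 + x) ≤ n → x ≤ s * s ∧ D (l1 + x) ≤ P.K * (s * s) := by
    intro x hx hxn
    constructor
    · rcases Nat.eq_zero_or_pos x with h0 | h0
      · omega
      · have h1 := (hx 0 h0).2
        rw [Nat.add_zero] at h1
        have h2 : s < D l1 := by
          by_contra hc
          exact hw1' ⟨by omega, h1⟩
        have h3 := hNsum l1 x
        have h4 : x * s ≤ x * D l1 := Nat.mul_le_mul_left _ h2.le
        by_contra hc
        push Not at hc
        have h5 : s * s * s ≤ x * s := Nat.mul_le_mul_right _ hc.le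
        omega
    · cases x with
      | zero =>
        rw [Nat.add_zero]
        refine hDl1.trans (Nat.mul_le_mul_left _ ?_)
        exact Nat.le_mul_of_pos_left _ hs1
      | succ x =>
        exact (hDK (l1 + x)).trans (Nat.mul_le_mul_left _ (hx x (by omega)).1)
  have hD2 : ∀ x, x ≤ s * s → D (l1 + x) ≤ P.K * (s * s) →
      P.D2 X s x (cl M co (R l1)) = D (l1 + x) ∧
      ∀ j, P.l2 X s x (cl M co (R l1)) j = co ((R (l1 + x))[j]?) := by
    intro x hx1 hx2
    have := D2_spec hbelt hP hco hne hs1 hX1 hx1 (y := R l1) (by rw [hadd, hRD]; exact hx2)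
    rw [hadd, hRD] at this
    exact this
  have hw2 := fun m => walk_spec (D := fun x => D (l1 + x)) (N := fun x => N (l1 + x))
    (b := s * s) hNs2 (by simpa using hw1b) m
  have hw2' := walk_end (D := fun x => D (l1 + x)) (N := fun x => N (l1 + x))
    (b := s * s) hNs2 (by simpa using hw1b) (fun x => hD1 _)
  simp only [Nat.add_zero] at hw2 hw2'
  have hloop2 : P.loop2 X s n (cl M co (R l1)) (N l1) (n + 1) =
      walk (fun x => D (l1 + x)) (s * s) n (N l1) (n + 1) := by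
    apply walk_congr
    intro m _
    obtain ⟨h1, h2, h3⟩ := hw2 m
    obtain ⟨h4, h5⟩ := hbig2 _ h3 h2
    exact (hD2 _ h4 h5).1
  have hi2N2 : P.i2 n X = (walk (fun x => D (l1 + x)) (s * s) n (N l1) (n + 1)).1 ∧
      P.N2 n X = (walk (fun x => D (l1 + x)) (s * s) n (N l1) (n + 1)).2 := by
    unfold Data.i2 Data.N2
    rw [← hs, hy1N1.1, hy1N1.2, hloop2]
    exact ⟨rfl, rfl⟩
  obtain ⟨h2a, h2b, h2c⟩ := hw2 (n + 1)
  obtain ⟨x2, hx2⟩ : ∃ x2, x2 = (walk (fun x => D (l1 + x)) (s * s) n (N l1) (n + 1)).1 :=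
    ⟨_, rfl⟩
  rw [← hx2] at hi2N2 h2a h2b h2c hw2'
  rw [h2a] at hi2N2
  obtain ⟨hx2a, hx2b⟩ := hbig2 x2 h2c h2b
  obtain ⟨-, hl2⟩ := hD2 x2 hx2a hx2b
  obtain ⟨l2, hl2def⟩ : ∃ l2, l2 = l1 + x2 := ⟨_, rfl⟩
  rw [← hl2def] at hi2N2 h2a h2b hw2' hx2b hl2
  -- the third loop
  have hNs3 : ∀ x, N (l2 + (x + 1)) = N (l2 + x) + D (l2 + x) := fun x => hNs (l2 + x)
  have hbig3 : ∀ x, (∀ i < x, D (l2 + i) ≤ n ∧ N (l2 + i) + D (l2 + i) ≤ n) →
      N (l2 + x) ≤ n → x + 1 ≤ s ∧ x ≤ n ∧ D (l2 + x) ≤ P.K * (n + s * s) := by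
    intro x hx hxn
    refine ⟨?_, ?_, ?_⟩
    · rcases Nat.eq_zero_or_pos x with h0 | h0
      · omega
      · have h1 := (hx 0 h0).2
        rw [Nat.add_zero] at h1
        have h2 : s * s < D l2 := by
          by_contra hc
          exact hw2' ⟨by omega, h1⟩
        have h3 := hNsum l2 x
        have h4 : x * (s * s) ≤ x * D l2 := Nat.mul_le_mul_left _ h2.le
        by_contra hc
        push Not at hc
        have h5 : s * (s * s) ≤ x * (s * s) := Nat.mul_le_mul_right _ (by omega)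
        have h6 : s * (s * s) = s * s * s := by ring
        omega
    · have := hNl (l2 + x)
      omega
    · cases x with
      | zero =>
        rw [Nat.add_zero]
        refine hx2b.trans (Nat.mul_le_mul_left _ ?_)
        omega
      | succ x =>
        refine (hDK (l2 + x)).trans (Nat.mul_le_mul_left _ ?_)
        have := (hx x (by omega)).1
        omega
  have hD3 : ∀ x, x + 1 ≤ s → x ≤ n → D (l2 + x) ≤ P.K * (n + s * s) →
      P.D3 X s x2 (cl M co (R l1)) n x = D (l2 + x) ∧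
      ∀ j, P.l3 X s x2 (cl M co (R l1)) n x j = co ((R (l2 + x))[j]?) := by
    intro x hx1 hx2 hx3
    have := D3_spec hpipe hP hco hne hl2 ((Nat.pow_le_pow_right hQ hx1).trans hX2) hx2
      (by rw [hadd, hRD]; exact hx3)
    rw [hadd, hRD] at this
    exact this
  have hw3 := fun m => walk_spec (D := fun x => D (l2 + x)) (N := fun x => N (l2 + x))
    (b := n) hNs3 (by simpa using h2b) m
  have hw3' := walk_end (D := fun x => D (l2 + x)) (N := fun x => N (l2 + x))
    (b := n) hNs3 (by simpa using h2b) (fun x => hD1 _)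
  simp only [Nat.add_zero] at hw3 hw3'
  have hloop3 : P.loop3 X s n (cl M co (R l1)) x2 (N l2) (n + 1) =
      walk (fun x => D (l2 + x)) n n (N l2) (n + 1) := by
    apply walk_congr
    intro m _
    obtain ⟨h1, h2, h3⟩ := hw3 m
    obtain ⟨h4, h5, h6⟩ := hbig3 _ h3 h2
    exact (hD3 _ h4 h5 h6).1
  have hk3N3 : P.k3 n X = (walk (fun x => D (l2 + x)) n n (N l2) (n + 1)).1 ∧
      P.N3 n X = (walk (fun x => D (l2 + x)) n n (N l2) (n + 1)).2 := by
    unfold Data.k3 Data.N3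
    rw [← hs, hy1N1.1, hi2N2.1, hi2N2.2, hloop3]
    exact ⟨rfl, rfl⟩
  obtain ⟨h3a, h3b, h3c⟩ := hw3 (n + 1)
  obtain ⟨x3, hx3⟩ : ∃ x3, x3 = (walk (fun x => D (l2 + x)) n n (N l2) (n + 1)).1 :=
    ⟨_, rfl⟩
  rw [← hx3] at hk3N3 h3a h3b h3c hw3'
  rw [h3a] at hk3N3
  obtain ⟨hx3a, hx3b, hx3c⟩ := hbig3 x3 h3c h3b
  obtain ⟨-, hl3⟩ := hD3 x3 hx3a hx3b hx3c
  rw [hi2N2.1, hy1N1.1, hk3N3.1, hk3N3.2, hl3]
  have hlt : n - N (l2 + x3) < (R (l2 + x3)).length := by
    rw [hRD]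
    have : ¬ (N (l2 + x3) + D (l2 + x3) ≤ n) := by
      intro hc
      exact hw3' ⟨by omega, hc⟩
    omega
  have hfin := word_row hr hu hw (l := l2 + x3) (j := n - N (l2 + x3)) (by
    have := hlt
    rw [hR] at this
    exact this)
  have e1 : (R (l2 + x3))[n - N (l2 + x3)]? = some (w ((τ.map^[l2 + x3] [a]).length +
      (n - N (l2 + x3)))) := by
    rw [← hfin, hR]
  rw [e1]
  congr 3
  have e2 : (τ.map^[l2 + x3] [a]).length = N (l2 + x3) := by rw [hN]
  rw [e2]
  omega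

end Pool.Agent.TH381.RM2
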