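import Pool.Agent.TH381.RM.Defs

/-!
Definitions and the statements of the parts of the simulation in three stages.
-/

set_option autoImplicit false

namespace Pool.Agent.TH381.RM2

open Pool.Agent.H584R2.Dg Pool.Agent.W614.Dg Pool.Agent.H539R2 Pool.Agent.TH381.RM

/-- The dgsm with an additional state in which it copies its input. -/
def belt {S : Type} (τ : Dgsm S) : Dgsm S where
  Q := Option τ.Q
  finQ := by have := τ.finQ; infer_instance
  init := some τ.init
  next := fun q s => match q with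
    | none => none
    | some q => some (τ.next q s)
  out := fun q s => match q with
    | none => [s]
    | some q => τ.out q s

/-- The pipeline of `l` stages fed by a belt carrying the word `y`: the letters of `y` are in the
cells `-l, -l - 1, ...`. -/
def cb {S : Type} (τ : Dgsm S) (y : List S) (l : ℕ) : ℕ → ℤ → Cell (belt τ)
  | 0, i => if i = 1 then none else if i + l ≤ 0 then some (none, (y[(-(i + l)).toNat]?).toList)
      else some (some τ.init, [])
  | t + 1, i => rule (belt τ) (cb τ y l t (i - 1)) (cb τ y l t i) (cb τ y l t (i + 1))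

/-- BELT: the letters in front at the cell `0` are the letters of `τ^l(y)`. -/
def SBelt : Prop := ∀ (S : Type) (τ : Dgsm S) (y : List S) (l : ℕ), τ.NonErasing →
  (∀ T : ℕ, 4 * (τ.map^[l] y).length + l + 4 ≤ T →
    (List.range T).filterMap (fun t => (buf (cb τ y l t 0)).head?) = τ.map^[l] y) ∧
  ∀ L : ℕ, 1 ≤ L → (∀ q x, (τ.out q x).length ≤ L) →
    ∀ t i, (buf (cb τ y l t i)).length ≤ L

/-- A cellular automaton with states coded by numbers, the digits of `y` on a belt. -/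
def cy (f : ℕ → ℕ → ℕ → ℕ) (q tab a2 b M y l : ℕ) : ℕ → ℤ → ℕ
  | 0, i => if i = 1 then a2 else if i + l ≤ 0 then dg q tab (dg M y (-(i + l)).toNat) else b
  | t + 1, i => f (cy f q tab a2 b M y l t (i - 1)) (cy f q tab a2 b M y l t i)
      (cy f q tab a2 b M y l t (i + 1))

/-- SIMB: the state of the cell `0` at the time `t` is computed within values `X ^ O(1)`. -/
def SSimB : Prop := ∀ (q M : ℕ) (f : ℕ → ℕ → ℕ → ℕ) (tab a2 b : ℕ), a2 < q → b < q →
  (∀ x y z, x < q → y < q → z < q → f x y z < q) →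
  ∃ St : ℕ → ℕ → ℕ → ℕ → ℕ → ℕ, LS (fun ρ => St (ρ 0) (ρ 1) (ρ 2) (ρ 3) (ρ 4)) ∧
    ∀ X B l y t : ℕ, 1 ≤ B → t < B * B → (48 * B + 24) ^ (8 * q * B) ≤ X →
      St X B l y t = cy f q tab a2 b M y l t 0

/-- A coding of letters by the nonzero numbers below `M`. -/
structure Coding {S : Type} (M : ℕ) (co : Option S → ℕ) (e : ℕ → Option S) : Prop where
  none : co none = 0
  some : ∀ x, co (some x) ≠ 0
  lt : ∀ x, co x < M
  inv : ∀ x, e (co x) = x

/-- SEQ: the pipeline of `k` stages fed by a word `y` whose letters are given by a function is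
simulated step by step, within values polynomial in `Q ^ (k + 1)`. -/
def SSeq : Prop := ∀ (S : Type) [Finite S] (τ : Dgsm S) (K M : ℕ) (co : Option S → ℕ)
  (e : ℕ → Option S), τ.NonErasing → (∀ q x, (τ.out q x).length ≤ K) → 1 ≤ K → Coding M co e →
  ∃ (Q : ℕ) (hd : (ℕ → ℕ) → ℕ → ℕ → ℕ → ℕ), 1 ≤ Q ∧
    (∀ (G : ℕ → (ℕ → ℕ) → ℕ) (X k t : (ℕ → ℕ) → ℕ), LS (fun ρ => G (ρ 0) (tl ρ)) → LS X →
      LS k → LS t → LS (fun ρ => hd (fun c => G c ρ) (X ρ) (k ρ) (t ρ))) ∧
    ∀ (g : ℕ → ℕ) (X k t : ℕ) (y : List S), (∀ c, g c = co (y[c]?)) → Q ^ (k + 1) ≤ X →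
      hd g X k t = co (buf (cf τ y k t 0)).head?

/-- The code of a word. -/
def cl {S : Type} (M : ℕ) (co : Option S → ℕ) (v : List S) : ℕ :=
  Nat.ofDigits M (v.map (fun x => co (some x)))

/-- MAP: the map of a dgsm on codes of words. -/
def SMap : Prop := ∀ (S : Type) [Finite S] (τ : Dgsm S) (K M : ℕ) (co : Option S → ℕ)
  (e : ℕ → Option S), τ.NonErasing → (∀ q x, (τ.out q x).length ≤ K) → 1 ≤ K → Coding M co e →
  ∃ (mp : ℕ → ℕ → ℕ) (ln : ℕ → ℕ), LS (fun ρ => mp (ρ 0) (ρ 1)) ∧ LS (fun ρ => ln (ρ 0)) ∧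
    (∀ v, ln (cl M co v) = v.length) ∧ (∀ v i, dg M (cl M co v) i = co (v[i]?)) ∧
    (∀ v, cl M co v < M ^ v.length) ∧
    ∀ X v, M ^ (K * v.length + 1) ≤ X → mp X (cl M co v) = cl M co (τ.map v)

end Pool.Agent.TH381.RM2
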