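import Pool.Agent.TH381.RM2.Correct
import Pool.Agent.TH479.RM2.Belt
import Pool.Agent.TH969.RM2.SimS
import Pool.Agent.TH251.RM2.Seq
import Pool.Agent.TH440.RM2.Map
import Pool.Agent.TH304.RM2.Fin

/-!
All words of row marker dgsm's are generated in space `O(n ^ (1 / 3) log n)`.
-/

set_option autoImplicit false

namespace Pool.Agent.TH381.RM2

open Pool.Agent.H584R2.Dg Pool.Agent.W614.Dg Pool.Agent.H539R2 Pool.Agent.TH381.RM

theorem pow_le_aux {a B m k : ℕ} (h : m ≤ k * B) : a ^ m ≤ (48 * B + 24) ^ (a * (k * B)) := by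
  rcases Nat.eq_zero_or_pos a with h0 | h0
  · subst h0
    rcases Nat.eq_zero_or_pos m with h1 | h1
    · subst h1
      simp
    · rw [Nat.zero_pow h1]
      exact Nat.zero_le _
  calc a ^ m ≤ a ^ (k * B) := Nat.pow_le_pow_right h0 h
    _ ≤ ((48 * B + 24) ^ a) ^ (k * B) :=
      Nat.pow_le_pow_left (Nat.lt_pow_self (by omega : 1 < 48 * B + 24)).le _
    _ = _ := by rw [← pow_mul]

theorem inSpace_all {S : Type} [Finite S] (τ : Dgsm S) (a h : S) (w : ℕ → S)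
    (hne : τ.NonErasing) (hw : τ.IsLimit a w) (hr : RowMarker τ a h) :
    InSpace (fun n => (n : ℝ) ^ (1 / 3 : ℝ) * (Real.log n + 1)) w := by
  obtain ⟨u, hu⟩ := hr.start
  obtain ⟨K0, hK0⟩ := exists_bound τ
  obtain ⟨K, hKdef⟩ : ∃ K, K = K0 + (h :: u).length := ⟨_, rfl⟩
  have hK1 : 1 ≤ K := by rw [hKdef]; simp; omega
  have hK : ∀ q x, (τ.out q x).length ≤ K := fun q x => (hK0 q x).trans (by omega)
  have hKu : (h :: u).length ≤ K := by omega
  obtain ⟨M, co, e, h0, h1, h2, h3⟩ := exists_letters S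
  have hco : Coding M co e := ⟨h0, h1, h2, h3⟩
  obtain ⟨mp, ln, hmp, hln, hln', hdig, hlt, hmp'⟩ :=
    TH440.RM2.map_code S τ K M co e hne hK hK1 hco
  obtain ⟨Q, hd, hQ, hdLS, hd'⟩ := TH251.RM2.seq S τ K M co e hne hK hK1 hco
  obtain ⟨q, hB, hq, hBLS, hB'⟩ := stage2 TH479.RM2.belt_pipe TH969.RM2.sim_b τ hne hK hK1 hco hdig
  obtain ⟨P, hP⟩ : ∃ P : Data, P = ⟨K, cl M co (h :: u), co (some a), hB, hd, mp, ln⟩ := ⟨_, rfl⟩
  have hPK : P.K = K := by rw [hP]
  have hLS : DataLS P := by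
    rw [hP]
    exact ⟨hBLS, hdLS, hmp, hln⟩
  have hOK : DataOK P τ (h :: u) M q Q co := by
    rw [hP]
    exact ⟨rfl, hln', hlt, hmp', hB', hd'⟩
  have hcoa : P.coa = co (some a) := by rw [hP]
  refine TH304.RM2.fin S w M (8 * q + Q * 1 + M * (K + 1)) (2 * K + 3) co e P.Lt hco
    (by omega) (by omega) (Data.LS_Lt hLS) ?_
  intro n X hX
  obtain ⟨s, hs⟩ : ∃ s, s = cbr n := ⟨_, rfl⟩
  have hs1 : 1 ≤ s := by rw [hs]; exact cbr_pos n
  rw [← hs] at hX
  have hB2 : B2 P.K s = (2 * K + 3) * s := by rw [hPK]; rfl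
  obtain ⟨B, hBdef⟩ : ∃ B, B = (2 * K + 3) * s := ⟨_, rfl⟩
  rw [← hBdef] at hX hB2
  have hsB : s ≤ B := by rw [hBdef]; exact Nat.le_mul_of_pos_left _ (by omega)
  refine Lt_spec TH479.RM2.belt_pipe TH805.RM.pipe hOK hco hcoa hne hw hr hu
    (by rw [hPK]; exact hK) (by rw [hPK]; exact hK1) (by rw [hPK]; exact hKu) hQ ?_ ?_ ?_
  · rw [← hs, hB2]
    refine le_trans (Nat.pow_le_pow_right (by omega) ?_) hX
    exact Nat.mul_le_mul_right _ (by omega)
  · rw [← hs]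
    refine le_trans (pow_le_aux (B := B) (k := 1) (by omega)) (le_trans
      (Nat.pow_le_pow_right (by omega) ?_) hX)
    rw [← mul_assoc]
    exact Nat.mul_le_mul_right _ (by omega)
  · rw [← hs, hPK]
    refine le_trans (pow_le_aux (B := B) (k := K + 1) ?_) (le_trans
      (Nat.pow_le_pow_right (by omega) ?_) hX)
    · have h4 : K * s ≤ K * B := Nat.mul_le_mul_left _ hsB
      have h5 : (K + 1) * B = K * B + B := by ring
      omega
    · rw [← mul_assoc]
      exact Nat.mul_le_mul_right _ (by omega)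

end Pool.Agent.TH381.RM2
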