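import Pool.Agent.TH381.RM2.Stage2

/-!
The letter function, in `LS`.
-/

set_option autoImplicit false
set_option linter.unusedVariables false

namespace Pool.Agent.TH381.RM2

open Pool.Agent.H584R2.Dg Pool.Agent.W614.Dg Pool.Agent.H539R2 Pool.Agent.TH381.RM

/-- steps of the second stage -/
def T2 (K S : ℕ) : ℕ := (4 * K + 1) * (S * S) + 4

/-- block size of the second stage -/
def B2 (K S : ℕ) : ℕ := (2 * K + 3) * S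

/-- steps of the third stage -/
def T3 (K S n : ℕ) : ℕ := 2 * K * (n + S * S) + n + 4

/-- data of the computation -/
structure Data where
  K : ℕ
  y0 : ℕ
  coa : ℕ
  hB : ℕ → ℕ → ℕ → ℕ → ℕ → ℕ
  hd : (ℕ → ℕ) → ℕ → ℕ → ℕ → ℕ
  mp : ℕ → ℕ → ℕ
  ln : ℕ → ℕ

/-- the data are in `LS` -/
structure DataLS (P : Data) : Prop where
  hB : LS (fun ρ => P.hB (ρ 0) (ρ 1) (ρ 2) (ρ 3) (ρ 4))
  hd : ∀ (G : ℕ → (ℕ → ℕ) → ℕ) (X k t : (ℕ → ℕ) → ℕ), LS (fun ρ => G (ρ 0) (tl ρ)) → LS X →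
    LS k → LS t → LS (fun ρ => P.hd (fun c => G c ρ) (X ρ) (k ρ) (t ρ))
  mp : LS (fun ρ => P.mp (ρ 0) (ρ 1))
  ln : LS (fun ρ => P.ln (ρ 0))

namespace Data

variable (P : Data)

def h2 (X S i y t : ℕ) : ℕ := P.hB X (B2 P.K S) i y t
def D2 (X S i y : ℕ) : ℕ := cntf (fun t => P.h2 X S i y t) (T2 P.K S)
def l2 (X S i y j : ℕ) : ℕ := ltrf (fun t => P.h2 X S i y t) (T2 P.K S) j
def h3 (X S i y k t : ℕ) : ℕ := P.hd (fun c => P.l2 X S i y c) X k t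
def D3 (X S i y n k : ℕ) : ℕ := cntf (fun t => P.h3 X S i y k t) (T3 P.K S n)
def l3 (X S i y n k j : ℕ) : ℕ := ltrf (fun t => P.h3 X S i y k t) (T3 P.K S n) j

/-- the first loop -/
def loop1 (X S n : ℕ) : ℕ → ℕ × ℕ := rec2 (fun x y =>
  (if P.ln x ≤ S ∧ y + P.ln x ≤ n then min (P.mp X x) X else x,
   if P.ln x ≤ S ∧ y + P.ln x ≤ n then y + P.ln x else y)) P.y0 1

def y1 (n X : ℕ) : ℕ := (P.loop1 X (cbr n) n (n + 1)).1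
def N1 (n X : ℕ) : ℕ := (P.loop1 X (cbr n) n (n + 1)).2

/-- the second loop -/
def loop2 (X S n y N : ℕ) : ℕ → ℕ × ℕ := walk (fun x => P.D2 X S x y) (S * S) n N

def i2 (n X : ℕ) : ℕ := (P.loop2 X (cbr n) n (P.y1 n X) (P.N1 n X) (n + 1)).1
def N2 (n X : ℕ) : ℕ := (P.loop2 X (cbr n) n (P.y1 n X) (P.N1 n X) (n + 1)).2

/-- the third loop -/
def loop3 (X S n y i N : ℕ) : ℕ → ℕ × ℕ := walk (fun x => P.D3 X S i y n x) n n N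

def k3 (n X : ℕ) : ℕ := (P.loop3 X (cbr n) n (P.y1 n X) (P.i2 n X) (P.N2 n X) (n + 1)).1
def N3 (n X : ℕ) : ℕ := (P.loop3 X (cbr n) n (P.y1 n X) (P.i2 n X) (P.N2 n X) (n + 1)).2

/-- the letter -/
def Lt (n X : ℕ) : ℕ := if n = 0 then P.coa else
  P.l3 X (cbr n) (P.i2 n X) (P.y1 n X) n (P.k3 n X) (n - P.N3 n X)

end Data

theorem LS_wkn {f : (ℕ → ℕ) → ℕ} (hf : LS f) (k : ℕ) : LS (fun ρ => f (tl^[k] ρ)) := by
  induction k with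
  | zero => exact hf
  | succ k ih => exact ih.wk

theorem LS_comp5 {F : ℕ → ℕ → ℕ → ℕ → ℕ → ℕ}
    (hF : LS (fun ρ => F (ρ 0) (ρ 1) (ρ 2) (ρ 3) (ρ 4))) {X B l y t : (ℕ → ℕ) → ℕ}
    (hX : LS X) (hB : LS B) (hl : LS l) (hy : LS y) (ht : LS t) :
    LS (fun ρ => F (X ρ) (B ρ) (l ρ) (y ρ) (t ρ)) :=
  LS.lett (f := fun ρ' => F (X (tl ρ')) (B (tl ρ')) (l (tl ρ')) (y (tl ρ')) (ρ' 0)) ht
    (LS.lett (f := fun ρ' => F (X (tl (tl ρ'))) (B (tl (tl ρ'))) (l (tl (tl ρ'))) (ρ' 0) (ρ' 1))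
      hy.wk
      (LS.lett (f := fun ρ' => F (X (tl (tl (tl ρ')))) (B (tl (tl (tl ρ')))) (ρ' 0) (ρ' 1) (ρ' 2))
        hl.wk.wk
        (LS.lett (f := fun ρ' => F (X (tl (tl (tl (tl ρ'))))) (ρ' 0) (ρ' 1) (ρ' 2) (ρ' 3))
          hB.wk.wk.wk (LS.lett hX.wk.wk.wk.wk hF))))

namespace Data

variable {P : Data}

theorem LS_T2 (K : ℕ) {S : (ℕ → ℕ) → ℕ} (hS : LS S) : LS (fun ρ => T2 K (S ρ)) :=
  ((LS.const (4 * K + 1)).mul (hS.mul hS)).add (LS.const 4)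

theorem LS_T3 (K : ℕ) {S n : (ℕ → ℕ) → ℕ} (hS : LS S) (hn : LS n) :
    LS (fun ρ => T3 K (S ρ) (n ρ)) :=
  (((LS.const (2 * K)).mul (hn.add (hS.mul hS))).add hn).add (LS.const 4)

section

variable (hP : DataLS P)
include hP

theorem LS_h2 {X S i y t : (ℕ → ℕ) → ℕ} (hX : LS X) (hS : LS S) (hi : LS i) (hy : LS y)
    (ht : LS t) : LS (fun ρ => P.h2 (X ρ) (S ρ) (i ρ) (y ρ) (t ρ)) :=
  LS_comp5 hP.hB hX ((LS.const (2 * P.K + 3)).mul hS) hi hy ht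

theorem LS_D2 {X S i y : (ℕ → ℕ) → ℕ} (hX : LS X) (hS : LS S) (hi : LS i) (hy : LS y) :
    LS (fun ρ => P.D2 (X ρ) (S ρ) (i ρ) (y ρ)) :=
  LS_cntf (G := fun t ρ => P.h2 (X ρ) (S ρ) (i ρ) (y ρ) t)
    (LS_h2 hP hX.wk hS.wk hi.wk hy.wk (LS.var 0)) (LS_T2 P.K hS)

theorem LS_l2 {X S i y j : (ℕ → ℕ) → ℕ} (hX : LS X) (hS : LS S) (hi : LS i) (hy : LS y)
    (hj : LS j) : LS (fun ρ => P.l2 (X ρ) (S ρ) (i ρ) (y ρ) (j ρ)) :=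
  LS_ltrf (G := fun t ρ => P.h2 (X ρ) (S ρ) (i ρ) (y ρ) t)
    (fun t k ht => LS_h2 hP (LS_wkn hX k) (LS_wkn hS k) (LS_wkn hi k) (LS_wkn hy k) ht)
    (LS_T2 P.K hS) hj

theorem LS_h3 {X S i y k t : (ℕ → ℕ) → ℕ} (hX : LS X) (hS : LS S) (hi : LS i) (hy : LS y)
    (hk : LS k) (ht : LS t) : LS (fun ρ => P.h3 (X ρ) (S ρ) (i ρ) (y ρ) (k ρ) (t ρ)) :=
  hP.hd (fun c ρ => P.l2 (X ρ) (S ρ) (i ρ) (y ρ) c) X k t
    (LS_l2 hP hX.wk hS.wk hi.wk hy.wk (LS.var 0)) hX hk ht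

theorem LS_D3 {X S i y n k : (ℕ → ℕ) → ℕ} (hX : LS X) (hS : LS S) (hi : LS i) (hy : LS y)
    (hn : LS n) (hk : LS k) : LS (fun ρ => P.D3 (X ρ) (S ρ) (i ρ) (y ρ) (n ρ) (k ρ)) :=
  LS_cntf (G := fun t ρ => P.h3 (X ρ) (S ρ) (i ρ) (y ρ) (k ρ) t)
    (LS_h3 hP hX.wk hS.wk hi.wk hy.wk hk.wk (LS.var 0)) (LS_T3 P.K hS hn)

theorem LS_l3 {X S i y n k j : (ℕ → ℕ) → ℕ} (hX : LS X) (hS : LS S) (hi : LS i) (hy : LS y)
    (hn : LS n) (hk : LS k) (hj : LS j) :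
    LS (fun ρ => P.l3 (X ρ) (S ρ) (i ρ) (y ρ) (n ρ) (k ρ) (j ρ)) :=
  LS_ltrf (G := fun t ρ => P.h3 (X ρ) (S ρ) (i ρ) (y ρ) (k ρ) t)
    (fun t m ht => LS_h3 hP (LS_wkn hX m) (LS_wkn hS m) (LS_wkn hi m) (LS_wkn hy m)
      (LS_wkn hk m) ht) (LS_T3 P.K hS hn) hj

theorem LS_ln {x : (ℕ → ℕ) → ℕ} (hx : LS x) : LS (fun ρ => P.ln (x ρ)) :=
  LS.comp1 (F := P.ln) hP.ln hx

theorem LS_mp {X x : (ℕ → ℕ) → ℕ} (hX : LS X) (hx : LS x) : LS (fun ρ => P.mp (X ρ) (x ρ)) :=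
  LS.comp2 (F := P.mp) hP.mp hX hx

theorem LS_loop1 {X S n c : (ℕ → ℕ) → ℕ} (hX : LS X) (hS : LS S) (hn : LS n) (hc : LS c) :
    LS (fun ρ => (P.loop1 (X ρ) (S ρ) (n ρ) (c ρ)).1) ∧
    LS (fun ρ => (P.loop1 (X ρ) (S ρ) (n ρ) (c ρ)).2) := by
  refine LS_rec2 (c := c) (x0 := fun _ => P.y0) (y0 := fun _ => 1)
    (g1 := fun ρ => X ρ + P.y0) (g2 := fun ρ => n ρ + 1)
    (F1 := fun x y ρ => if P.ln x ≤ S ρ ∧ y + P.ln x ≤ n ρ then Nat.min (P.mp (X ρ) x) (X ρ)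
      else x)
    (F2 := fun x y ρ => if P.ln x ≤ S ρ ∧ y + P.ln x ≤ n ρ then y + P.ln x else y)
    hc (LS.const _) (LS.const 1) ?_ ?_ (hX.add (LS.const _)) (hn.add (LS.const 1)) ?_
  · intro x y hx hy
    have hl := LS_ln hP hx
    exact LS.ite (LSP.and (LSP.le hl hS.wk.wk) (LSP.le (hy.add hl) hn.wk.wk))
      (LS.min (LS_mp hP hX.wk.wk hx) hX.wk.wk) hx
  · intro x y hx hy
    have hl := LS_ln hP hx
    exact LS.ite (LSP.and (LSP.le hl hS.wk.wk) (LSP.le (hy.add hl) hn.wk.wk)) (hy.add hl) hy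
  · intro ρ m _
    induction m with
    | zero =>
      constructor
      · show P.y0 ≤ X ρ + P.y0
        omega
      · show 1 ≤ n ρ + 1
        omega
    | succ m ih =>
      have ih := ih (by omega)
      obtain ⟨h1, h2⟩ := ih
      unfold rec2
      by_cases hc : P.ln (rec2 (fun x y => (if P.ln x ≤ S ρ ∧ y + P.ln x ≤ n ρ then
          Nat.min (P.mp (X ρ) x) (X ρ) else x,
          if P.ln x ≤ S ρ ∧ y + P.ln x ≤ n ρ then y + P.ln x else y)) P.y0 1 m).1 ≤ S ρ ∧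
          (rec2 (fun x y => (if P.ln x ≤ S ρ ∧ y + P.ln x ≤ n ρ then
          Nat.min (P.mp (X ρ) x) (X ρ) else x,
          if P.ln x ≤ S ρ ∧ y + P.ln x ≤ n ρ then y + P.ln x else y)) P.y0 1 m).2 +
          P.ln (rec2 (fun x y => (if P.ln x ≤ S ρ ∧ y + P.ln x ≤ n ρ then
          Nat.min (P.mp (X ρ) x) (X ρ) else x,
          if P.ln x ≤ S ρ ∧ y + P.ln x ≤ n ρ then y + P.ln x else y)) P.y0 1 m).1 ≤ n ρ
      · simp only [if_pos hc]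
        constructor
        · exact (Nat.min_le_right _ _).trans (Nat.le_add_right _ _)
        · exact hc.2.trans (Nat.le_add_right _ _)
      · simp only [if_neg hc]
        exact ⟨h1, h2⟩

theorem LS_loop2 {X S n y N c : (ℕ → ℕ) → ℕ} (hX : LS X) (hS : LS S) (hn : LS n) (hy : LS y)
    (hN : LS N) (hc : LS c) :
    LS (fun ρ => (P.loop2 (X ρ) (S ρ) (n ρ) (y ρ) (N ρ) (c ρ)).1) ∧
    LS (fun ρ => (P.loop2 (X ρ) (S ρ) (n ρ) (y ρ) (N ρ) (c ρ)).2) :=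
  LS_walk (D := fun x ρ => P.D2 (X ρ) (S ρ) x (y ρ)) hc (hS.mul hS) hn hN
    (fun x hx => LS_D2 hP hX.wk.wk hS.wk.wk hx hy.wk.wk)

theorem LS_loop3 {X S n y i N c : (ℕ → ℕ) → ℕ} (hX : LS X) (hS : LS S) (hn : LS n) (hy : LS y)
    (hi : LS i) (hN : LS N) (hc : LS c) :
    LS (fun ρ => (P.loop3 (X ρ) (S ρ) (n ρ) (y ρ) (i ρ) (N ρ) (c ρ)).1) ∧
    LS (fun ρ => (P.loop3 (X ρ) (S ρ) (n ρ) (y ρ) (i ρ) (N ρ) (c ρ)).2) :=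
  LS_walk (D := fun x ρ => P.D3 (X ρ) (S ρ) (i ρ) (y ρ) (n ρ) x) hc hn hn hN
    (fun x hx => LS_D3 hP hX.wk.wk hS.wk.wk hi.wk.wk hy.wk.wk hn.wk.wk hx)

theorem LS_Lt : LS (fun ρ => P.Lt (ρ 0) (ρ 1)) := by
  have hn : LS (fun ρ => ρ 0) := LS.var 0
  have hX : LS (fun ρ => ρ 1) := LS.var 1
  have hS := LS_cbr hn
  have h1 := LS_loop1 hP hX hS hn hn.succ
  have h2 := LS_loop2 hP hX hS hn h1.1 h1.2 hn.succ
  have h3 := LS_loop3 hP hX hS hn h1.1 h2.1 h2.2 hn.succ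
  exact LS.ite (LSP.eq hn LS.zero) (LS.const P.coa)
    (LS_l3 hP hX hS h2.1 h1.1 hn h3.1 (hn.sub h3.2))

end

end Data

end Pool.Agent.TH381.RM2
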