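import Pool.Agent.TH381.RM2.Walk

/-!
The second stage: the letters in front as an `LS` function.
-/

set_option autoImplicit false

namespace Pool.Agent.TH381.RM2

open Pool.Agent.H584R2.Dg Pool.Agent.W614.Dg Pool.Agent.H539R2 Pool.Agent.TH381.RM

theorem cy_eq {S : Type} {τ : Dgsm S} {y : List S} {l K M : ℕ} {co : Option S → ℕ}
    {e : ℕ → Option S} (hco : Coding M co e) (hdig : ∀ v i, dg M (cl M co v) i = co (v[i]?))
    {q : ℕ} (hq : 0 < q) {en : Cell (belt τ) → ℕ} {de : ℕ → Cell (belt τ)} (hen : ∀ x, en x < q)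
    (hde : ∀ x, (buf x).length ≤ K → de (en x) = x)
    (hb : ∀ t i, (buf (cb τ y l t i)).length ≤ K) (t : ℕ) : ∀ i,
    cy (fun x y z => en (rule (belt τ) (de x) (de y) (de z))) q
      (digs q M (fun m => en (some (none, (e m).toList)))) (en none)
      (en (some (some τ.init, []))) M (cl M co y) l t i = en (cb τ y l t i) := by
  induction t with
  | zero =>
    intro i
    unfold cy cb
    by_cases h1 : i = 1
    · rw [if_pos h1, if_pos h1]
    · rw [if_neg h1, if_neg h1]
      by_cases h2 : i + l ≤ 0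
      · rw [if_pos h2, if_pos h2, hdig, dg_digs q M hq _ (fun _ _ => hen _) _ (hco.lt _), hco.inv]
      · rw [if_neg h2, if_neg h2]
  | succ t ih =>
    intro i
    unfold cy cb
    rw [ih, ih, ih, hde _ (hb _ _), hde _ (hb _ _), hde _ (hb _ _)]

theorem stage2 (hbelt : SBelt) (hsim : SSimB) {S : Type} [Finite S] (τ : Dgsm S) {K M : ℕ}
    {co : Option S → ℕ} {e : ℕ → Option S} (hne : τ.NonErasing)
    (hK : ∀ q x, (τ.out q x).length ≤ K) (hK1 : 1 ≤ K) (hco : Coding M co e)
    (hdig : ∀ v i, dg M (cl M co v) i = co (v[i]?)) :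
    ∃ (q : ℕ) (hB : ℕ → ℕ → ℕ → ℕ → ℕ → ℕ), 1 ≤ q ∧
      LS (fun ρ => hB (ρ 0) (ρ 1) (ρ 2) (ρ 3) (ρ 4)) ∧
      ∀ X B l t y, 1 ≤ B → t < B * B → (48 * B + 24) ^ (8 * q * B) ≤ X →
        hB X B l (cl M co y) t = co (buf (cb τ y l t 0)).head? := by
  classical
  obtain ⟨q, en, de, hen, hde⟩ := exists_code (belt τ) K
  have hM : 0 < M := by have := hco.lt none; omega
  have hq : 0 < q := by have := hen none; omega
  obtain ⟨St, hLS, hSt⟩ := hsim q M (fun x y z => en (rule (belt τ) (de x) (de y) (de z)))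
    (digs q M (fun m => en (some (none, (e m).toList)))) (en none) (en (some (some τ.init, [])))
    (hen _) (hen _) (fun _ _ _ _ _ _ => hen _)
  refine ⟨q, fun X B l y t => dg M (digs M q (fun s => co (buf (de s)).head?)) (St X B l y t), hq,
    ?_, ?_⟩
  · exact LS.dg (LS.const M) (LS.const _) hLS
  · intro X B l t y hB ht hX
    have hcell : ∀ t i, (buf (cb τ y l t i)).length ≤ K := (hbelt S τ y l hne).2 K hK1 hK
    show dg M (digs M q (fun s => co (buf (de s)).head?)) (St X B l (cl M co y) t) = _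
    rw [hSt X B l _ t hB ht hX, cy_eq hco hdig hq hen hde hcell,
      dg_digs M q hM _ (fun _ _ => hco.lt _) _ (hen _), hde _ (hcell _ _)]

end Pool.Agent.TH381.RM2
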