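import Pool.Agent.TH381.RM2.Cbr

/-!
Recursions with two components, walks through the rows, counting.
-/

set_option autoImplicit false
set_option linter.unusedVariables false

namespace Pool.Agent.TH381.RM2

open Pool.Agent.H584R2.Dg Pool.Agent.W614.Dg Pool.Agent.H539R2 Pool.Agent.TH381.RM

/-- recursion with two components -/
def rec2 (F : ℕ → ℕ → ℕ × ℕ) (x0 y0 : ℕ) : ℕ → ℕ × ℕ
  | 0 => (x0, y0)
  | m + 1 => F (rec2 F x0 y0 m).1 (rec2 F x0 y0 m).2

theorem rec2_nrec (F : ℕ → ℕ → ℕ × ℕ) (x0 y0 m : ℕ) :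
    nrec (Nat.pair x0 y0) (fun _ z => Nat.pair (F (Nat.unpair z).1 (Nat.unpair z).2).1
      (F (Nat.unpair z).1 (Nat.unpair z).2).2) m =
      Nat.pair (rec2 F x0 y0 m).1 (rec2 F x0 y0 m).2 := by
  induction m with
  | zero => rfl
  | succ m ih =>
    rw [nrec_succ, ih]
    simp only [Nat.unpair_pair]
    rfl

theorem LS_rec2 {c x0 y0 g1 g2 : (ℕ → ℕ) → ℕ} {F1 F2 : ℕ → ℕ → (ℕ → ℕ) → ℕ} (hc : LS c)
    (hx0 : LS x0) (hy0 : LS y0)
    (hF1 : ∀ x y : (ℕ → ℕ) → ℕ, LS x → LS y → LS (fun ρ => F1 (x ρ) (y ρ) (tl (tl ρ))))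
    (hF2 : ∀ x y : (ℕ → ℕ) → ℕ, LS x → LS y → LS (fun ρ => F2 (x ρ) (y ρ) (tl (tl ρ))))
    (hg1 : LS g1) (hg2 : LS g2)
    (hb : ∀ ρ, ∀ m ≤ c ρ,
      (rec2 (fun x y => (F1 x y ρ, F2 x y ρ)) (x0 ρ) (y0 ρ) m).1 ≤ g1 ρ ∧
      (rec2 (fun x y => (F1 x y ρ, F2 x y ρ)) (x0 ρ) (y0 ρ) m).2 ≤ g2 ρ) :
    LS (fun ρ => (rec2 (fun x y => (F1 x y ρ, F2 x y ρ)) (x0 ρ) (y0 ρ) (c ρ)).1) ∧
    LS (fun ρ => (rec2 (fun x y => (F1 x y ρ, F2 x y ρ)) (x0 ρ) (y0 ρ) (c ρ)).2) := by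
  have h1 := LS.unpair1 (LS.var 0)
  have h2 := LS.unpair2 (LS.var 0)
  have key : LS (fun ρ => Nat.pair
      (rec2 (fun x y => (F1 x y ρ, F2 x y ρ)) (x0 ρ) (y0 ρ) (c ρ)).1
      (rec2 (fun x y => (F1 x y ρ, F2 x y ρ)) (x0 ρ) (y0 ρ) (c ρ)).2) := by
    have := LS.nrecB (c := c) (a := fun ρ => Nat.pair (x0 ρ) (y0 ρ))
      (b := fun _ z ρ => Nat.pair (F1 (Nat.unpair z).1 (Nat.unpair z).2 ρ)
        (F2 (Nat.unpair z).1 (Nat.unpair z).2 ρ))
      (g := fun ρ => (g1 ρ + g2 ρ + 1) * (g1 ρ + g2 ρ + 1)) hc (LS.pair hx0 hy0)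
      (LS.pair (hF1 _ _ h1 h2) (hF2 _ _ h1 h2))
      ((((hg1.add hg2).add (LS.const 1))).mul ((hg1.add hg2).add (LS.const 1))) (by
        intro ρ m hm
        have e := rec2_nrec (fun x y => (F1 x y ρ, F2 x y ρ)) (x0 ρ) (y0 ρ) m
        simp only at e
        rw [e]
        obtain ⟨h3, h4⟩ := hb ρ m hm
        have h5 := Nat.pair_lt_max_add_one_sq
          (rec2 (fun x y => (F1 x y ρ, F2 x y ρ)) (x0 ρ) (y0 ρ) m).1
          (rec2 (fun x y => (F1 x y ρ, F2 x y ρ)) (x0 ρ) (y0 ρ) m).2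
        refine h5.le.trans ?_
        rw [pow_two]
        apply Nat.mul_le_mul
        · exact Nat.succ_le_succ (max_le (by omega) (by omega))
        · exact Nat.succ_le_succ (max_le (by omega) (by omega)))
    apply this.congr
    intro ρ
    exact rec2_nrec (fun x y => (F1 x y ρ, F2 x y ρ)) (x0 ρ) (y0 ρ) (c ρ)
  constructor
  · apply (LS.unpair1 key).congr
    intro ρ
    simp
  · apply (LS.unpair2 key).congr
    intro ρ
    simp

/-- walk through the rows: `x` is the number of the row, `y` the number of letters before it -/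
def walk (D : ℕ → ℕ) (b n y0 : ℕ) : ℕ → ℕ × ℕ :=
  rec2 (fun x y => (if D x ≤ b ∧ y + D x ≤ n then x + 1 else x,
    if D x ≤ b ∧ y + D x ≤ n then y + D x else y)) 0 y0

theorem walk_succ (D : ℕ → ℕ) (b n y0 m : ℕ) : walk D b n y0 (m + 1) =
    (if D (walk D b n y0 m).1 ≤ b ∧ (walk D b n y0 m).2 + D (walk D b n y0 m).1 ≤ n then
      (walk D b n y0 m).1 + 1 else (walk D b n y0 m).1,
     if D (walk D b n y0 m).1 ≤ b ∧ (walk D b n y0 m).2 + D (walk D b n y0 m).1 ≤ n then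
      (walk D b n y0 m).2 + D (walk D b n y0 m).1 else (walk D b n y0 m).2) := rfl

theorem walk_bd (D : ℕ → ℕ) (b n y0 m : ℕ) :
    (walk D b n y0 m).1 ≤ m ∧ (walk D b n y0 m).2 ≤ n + y0 := by
  induction m with
  | zero => exact ⟨le_rfl, by show y0 ≤ n + y0; omega⟩
  | succ m ih =>
    rw [walk_succ]
    obtain ⟨h1, h2⟩ := ih
    by_cases hc : D (walk D b n y0 m).1 ≤ b ∧
        (walk D b n y0 m).2 + D (walk D b n y0 m).1 ≤ n
    · simp only [if_pos hc]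
      constructor
      · omega
      · omega
    · simp only [if_neg hc]
      constructor
      · omega
      · omega

theorem LS_walk {c b n y0 : (ℕ → ℕ) → ℕ} {D : ℕ → (ℕ → ℕ) → ℕ} (hc : LS c) (hb : LS b)
    (hn : LS n) (hy0 : LS y0)
    (hD : ∀ x : (ℕ → ℕ) → ℕ, LS x → LS (fun ρ => D (x ρ) (tl (tl ρ)))) :
    LS (fun ρ => (walk (fun x => D x ρ) (b ρ) (n ρ) (y0 ρ) (c ρ)).1) ∧
    LS (fun ρ => (walk (fun x => D x ρ) (b ρ) (n ρ) (y0 ρ) (c ρ)).2) := by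
  refine LS_rec2 (c := c) (x0 := fun _ => 0) (y0 := y0) (g1 := c) (g2 := fun ρ => n ρ + y0 ρ)
    (F1 := fun x y ρ => if D x ρ ≤ b ρ ∧ y + D x ρ ≤ n ρ then x + 1 else x)
    (F2 := fun x y ρ => if D x ρ ≤ b ρ ∧ y + D x ρ ≤ n ρ then y + D x ρ else y)
    hc LS.zero hy0 ?_ ?_ hc (hn.add hy0) ?_
  · intro x y hx hy
    exact LS.ite (LSP.and (LSP.le (hD x hx) hb.wk.wk) (LSP.le (hy.add (hD x hx)) hn.wk.wk))
      hx.succ hx
  · intro x y hx hy
    exact LS.ite (LSP.and (LSP.le (hD x hx) hb.wk.wk) (LSP.le (hy.add (hD x hx)) hn.wk.wk))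
      (hy.add (hD x hx)) hy
  · intro ρ m hm
    have := walk_bd (fun x => D x ρ) (b ρ) (n ρ) (y0 ρ) m
    exact ⟨this.1.trans hm, this.2⟩

theorem walk_congr {D D' : ℕ → ℕ} {b n y0 : ℕ} (m : ℕ)
    (h : ∀ m' < m, D' (walk D b n y0 m').1 = D (walk D b n y0 m').1) :
    walk D' b n y0 m = walk D b n y0 m := by
  induction m with
  | zero => rfl
  | succ m ih =>
    rw [walk_succ, walk_succ, ih (fun m' hm' => h m' (by omega)), h m (by omega)]

/-- Properties of walks. -/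
theorem walk_spec {D N : ℕ → ℕ} {b n : ℕ} (hN : ∀ l, N (l + 1) = N l + D l) (hn : N 0 ≤ n)
    (m : ℕ) :
    (walk D b n (N 0) m).2 = N (walk D b n (N 0) m).1 ∧ N (walk D b n (N 0) m).1 ≤ n ∧
    ∀ i < (walk D b n (N 0) m).1, D i ≤ b ∧ N i + D i ≤ n := by
  induction m with
  | zero => exact ⟨rfl, hn, by intro i hi; exact absurd hi (by show ¬ i < 0; omega)⟩
  | succ m ih =>
    obtain ⟨h1, h2, h3⟩ := ih
    rw [walk_succ]
    by_cases hc : D (walk D b n (N 0) m).1 ≤ b ∧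
        (walk D b n (N 0) m).2 + D (walk D b n (N 0) m).1 ≤ n
    · simp only [if_pos hc]
      refine ⟨by rw [hN, h1], by rw [hN, ← h1]; exact hc.2, ?_⟩
      intro i hi
      rcases Nat.lt_succ_iff_lt_or_eq.1 hi with hi | hi
      · exact h3 i hi
      · subst hi
        exact ⟨hc.1, by rw [← h1]; exact hc.2⟩
    · simp only [if_neg hc]
      exact ⟨h1, h2, h3⟩

theorem walk_end {D N : ℕ → ℕ} {b n : ℕ} (hN : ∀ l, N (l + 1) = N l + D l) (hn : N 0 ≤ n)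
    (hD : ∀ l, 1 ≤ D l) :
    ¬ (D (walk D b n (N 0) (n + 1)).1 ≤ b ∧
      N (walk D b n (N 0) (n + 1)).1 + D (walk D b n (N 0) (n + 1)).1 ≤ n) := by
  have key : ∀ m, (walk D b n (N 0) m).1 = m ∨
      ¬ (D (walk D b n (N 0) m).1 ≤ b ∧
        N (walk D b n (N 0) m).1 + D (walk D b n (N 0) m).1 ≤ n) := by
    intro m
    induction m with
    | zero => exact Or.inl rfl
    | succ m ih =>
      have h1 := (walk_spec (b := b) hN hn m).1
      rw [walk_succ, h1]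
      by_cases hc : D (walk D b n (N 0) m).1 ≤ b ∧
        N (walk D b n (N 0) m).1 + D (walk D b n (N 0) m).1 ≤ n
      · simp only [if_pos hc]
        rcases ih with ih | ih
        · left; rw [ih]
        · exact absurd hc ih
      · simp only [if_neg hc]
        exact Or.inr hc
  rcases key (n + 1) with h | h
  · exfalso
    have h2 := (walk_spec (b := b) hN hn (n + 1)).2.1
    rw [h] at h2
    have h3 : ∀ l, l ≤ N l := by
      intro l
      induction l with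
      | zero => omega
      | succ l ih =>
        rw [hN]
        have := hD l
        omega
    have := h3 (n + 1)
    omega
  · exact h

/-- number of nonzero values -/
def cntf (g : ℕ → ℕ) (T : ℕ) : ℕ := ∑ i ∈ Finset.range T, if g i = 0 then 0 else 1

/-- the `j`-th nonzero value -/
def ltrf (g : ℕ → ℕ) (T j : ℕ) : ℕ :=
  ∑ t ∈ Finset.range T, if (g t ≠ 0 ∧ cntf g t = j) then g t else 0

theorem LS_cntf {T : (ℕ → ℕ) → ℕ} {G : ℕ → (ℕ → ℕ) → ℕ} (hG : LS (fun ρ => G (ρ 0) (tl ρ)))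
    (hT : LS T) : LS (fun ρ => cntf (fun t => G t ρ) (T ρ)) :=
  LS.sum (F := fun i ρ => if G i ρ = 0 then 0 else 1) hT
    (LS.ite (LSP.eq hG LS.zero) LS.zero (LS.const 1))

/-- `G` in an environment with one more variable behind the first one -/
def Good (G : ℕ → (ℕ → ℕ) → ℕ) : Prop :=
  ∀ (t : (ℕ → ℕ) → ℕ) (k : ℕ), LS t → LS (fun ρ => G (t ρ) (tl^[k] ρ))

theorem LS_ltrf {T j : (ℕ → ℕ) → ℕ} {G : ℕ → (ℕ → ℕ) → ℕ} (hG : Good G)
    (hT : LS T) (hj : LS j) : LS (fun ρ => ltrf (fun t => G t ρ) (T ρ) (j ρ)) := by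
  have h1 : LS (fun ρ => G (ρ 0) (tl ρ)) := hG (fun ρ => ρ 0) 1 (LS.var 0)
  have h2 : LS (fun ρ => G (ρ 0) (tl (tl ρ))) := hG (fun ρ => ρ 0) 2 (LS.var 0)
  have h3 : LS (fun ρ => cntf (fun t => G t (tl ρ)) (ρ 0)) :=
    LS_cntf (G := fun t ρ => G t (tl ρ)) h2 (LS.var 0)
  exact LS.sum (F := fun t ρ => if (G t ρ ≠ 0 ∧ cntf (fun t => G t ρ) t = j ρ) then G t ρ else 0)
    hT (LS.ite (LSP.and (LSP.not (LSP.eq h1 LS.zero)) (LSP.eq h3 hj.wk)) h1 LS.zero)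

theorem cntf_spec {S : Type} {g : ℕ → ℕ} {g' : ℕ → Option S} {M : ℕ} {co : Option S → ℕ}
    {e : ℕ → Option S} (hco : Coding M co e) {T : ℕ} (h : ∀ t < T, g t = co (g' t)) :
    cntf g T = ((List.range T).filterMap g').length := by
  rw [← count_spec g' co hco.none hco.some]
  unfold cntf
  apply Finset.sum_congr rfl
  intro i hi
  rw [h i (Finset.mem_range.1 hi)]

theorem ltrf_spec {S : Type} {g : ℕ → ℕ} {g' : ℕ → Option S} {M : ℕ} {co : Option S → ℕ}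
    {e : ℕ → Option S} (hco : Coding M co e) {T : ℕ} (h : ∀ t < T, g t = co (g' t)) (j : ℕ) :
    ltrf g T j = co (((List.range T).filterMap g')[j]?) := by
  rw [← letter_spec g' co hco.none hco.some]
  unfold ltrf
  apply Finset.sum_congr rfl
  intro t ht
  have ht' := Finset.mem_range.1 ht
  have h1 : cntf g t = ∑ i ∈ Finset.range t, if co (g' i) = 0 then 0 else 1 := by
    unfold cntf
    apply Finset.sum_congr rfl
    intro i hi
    rw [h i ((Finset.mem_range.1 hi).trans ht')]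
  rw [h t ht', h1]

end Pool.Agent.TH381.RM2
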